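import Pool.Agent.W516.BQ.Defs

set_option autoImplicit false

/-!
# The complex determinant
-/

namespace Pool.Agent.W460.BQ

open Module Pool.Agent.W516.K3 Pool.Agent.W516.BQ

section

variable {T : Type} [AddCommGroup T] {κ : Type} [Fintype κ] [DecidableEq κ]

theorem sum_det [Module ℂ T] (b : Basis κ ℂ T) (X : T →ₗ[ℂ] T) (v : κ → T) :
    ∑ j, b.det (Function.update v j (X (v j))) = LinearMap.trace ℂ T X * b.det v := by
  obtain ⟨M, hM⟩ : ∃ M, M = b.toMatrix v := ⟨_, rfl⟩
  obtain ⟨A, hA⟩ : ∃ A, A = LinearMap.toMatrix b b X := ⟨_, rfl⟩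
  rw [LinearMap.trace_eq_matrix_trace ℂ b X, Basis.det_apply, ← hM, ← hA]
  have h1 : ∀ j, b.det (Function.update v j (X (v j))) = (M.adjugate * (A * M)) j j := by
    intro j
    rw [Basis.det_apply, Basis.toMatrix_update, ← hM, ← Matrix.cramer_apply,
      Matrix.cramer_eq_adjugate_mulVec, ← LinearMap.toMatrix_mulVec_repr b b X, ← hA,
      Matrix.mulVec_mulVec, ← Matrix.mul_assoc, Matrix.mul_apply]
    change ∑ l, _ * _ = _
    refine Finset.sum_congr rfl fun l _ => ?_
    rw [hM, Basis.toMatrix_apply]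
  rw [Finset.sum_congr rfl fun j _ => h1 j]
  change Matrix.trace (M.adjugate * (A * M)) = _
  rw [Matrix.trace_mul_comm, Matrix.mul_assoc, Matrix.mul_adjugate, Matrix.mul_smul,
    Matrix.mul_one, Matrix.trace_smul, smul_eq_mul, mul_comm]

theorem trace_real [Module ℝ T] [Module ℂ T] [IsScalarTower ℝ ℂ T] (b : Basis κ ℂ T)
    (x : T →ₗ[ℝ] T) (X : T →ₗ[ℂ] T) (h : ∀ v, x v = X v) :
    LinearMap.trace ℝ T x = 2 * (LinearMap.trace ℂ T X).re := by
  rw [LinearMap.trace_eq_matrix_trace ℝ (Complex.basisOneI.smulTower b) x,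
    LinearMap.trace_eq_matrix_trace ℂ b X, Matrix.trace, Matrix.trace, Fintype.sum_prod_type,
    Complex.re_sum, Fin.sum_univ_two, ← Finset.sum_add_distrib, Finset.mul_sum]
  refine Finset.sum_congr rfl fun j _ => ?_
  rw [Matrix.diag_apply, Matrix.diag_apply, Matrix.diag_apply, LinearMap.toMatrix_apply,
    LinearMap.toMatrix_apply, LinearMap.toMatrix_apply, Basis.smulTower_repr,
    Basis.smulTower_repr, Basis.smulTower_apply, Basis.smulTower_apply, h, h, map_smul, map_smul,
    map_smul, map_smul]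
  simp only [Complex.coe_basisOneI_repr, Complex.coe_basisOneI]
  simp only [Matrix.cons_val_zero, Matrix.cons_val_one, Finsupp.smul_apply, smul_eq_mul, one_mul,
    Complex.mul_im, Complex.I_re, Complex.I_im, zero_mul, zero_add]
  ring

end

/-- The complex determinant. -/
theorem T_DET : S_DET := by
  intro T _ _ _ J hJ κ _ _ hdim
  let φ : ℂ →ₐ[ℝ] Module.End ℝ T := Complex.liftAux J hJ
  let _ : Module ℂ T := Module.compHom T φ.toRingHom
  have hsm : ∀ (a : ℂ) (v : T), a • v = a.re • v + a.im • J v := by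
    intro a v
    change φ a v = _
    rw [Complex.liftAux_apply, LinearMap.add_apply, LinearMap.smul_apply]
    rfl
  have hI : ∀ v : T, Complex.I • v = J v := by
    intro v
    rw [hsm, Complex.I_re, Complex.I_im, zero_smul, zero_add, one_smul]
  have : IsScalarTower ℝ ℂ T := ⟨fun r a v => by
    rw [hsm, hsm, Complex.smul_re, Complex.smul_im, smul_eq_mul, smul_eq_mul, mul_smul, mul_smul,
      smul_add]⟩
  have : Module.Finite ℂ T := Module.Finite.of_restrictScalars_finite ℝ ℂ T
  have hd : finrank ℂ T = Fintype.card κ := by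
    have h1 := Module.finrank_mul_finrank ℝ ℂ T
    rw [Complex.finrank_real_complex, hdim] at h1
    omega
  let b : Basis κ ℂ T := (finBasisOfFinrankEq ℂ T hd).reindex (Fintype.equivFin κ).symm
  let Ψ : MultilinearMap ℝ (fun _ : κ => T) ℝ :=
    Complex.reLm.compMultilinearMap (b.det.toMultilinearMap.restrictScalars ℝ)
  have hΨ : ∀ v, Ψ v = (b.det v).re := fun v => rfl
  refine ⟨Ψ, ?_, ⟨?_, ?_⟩, ?_⟩
  · intro h0
    have h1 : Ψ b = 0 := by rw [h0]; rfl
    rw [hΨ, Basis.det_self, Complex.one_re] at h1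
    exact one_ne_zero h1
  · intro v p q
    have h1 : ∀ r, Ψ (Function.update v r (J (v r))) = (Complex.I * b.det v).re := by
      intro r
      rw [hΨ, ← hI, AlternatingMap.map_update_smul, Function.update_eq_self, smul_eq_mul]
    rw [h1, h1]
  · intro v p q hpq hv
    rw [hΨ, AlternatingMap.map_eq_zero_of_eq _ v hv hpq, Complex.zero_re]
  · intro x hx h1 h2 v
    have hx' : ∀ v, x (J v) = J (x v) := fun v => LinearMap.congr_fun hx v
    let X : T →ₗ[ℂ] T :=
      { toFun := x
        map_add' := x.map_add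
        map_smul' := fun a v => by
          rw [RingHom.id_apply, hsm, hsm, map_add, map_smul, map_smul, hx'] }
    have e1 := trace_real b x X fun v => rfl
    have e2 := trace_real b (x * J) (Complex.I • X) fun v => by
      rw [LinearMap.smul_apply, hI]
      exact hx' v
    rw [h1] at e1
    rw [h2, map_smul, smul_eq_mul, Complex.mul_re, Complex.I_re, Complex.I_im] at e2
    have e3 : LinearMap.trace ℂ T X = 0 := Complex.ext (by rw [Complex.zero_re]; linarith)
      (by rw [Complex.zero_im]; linarith)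
    have e4 := sum_det b X v
    rw [e3, zero_mul] at e4
    have e5 := congrArg Complex.re e4
    rw [Complex.re_sum, Complex.zero_re] at e5
    exact e5

end Pool.Agent.W460.BQ
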